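import Pool.Agent.U463.PV.LV
import Pool.Agent.Y190.AG.Ext
import Pool.Agent.Y190.PH.Clo

/-!
Grouplessness and arithmetic hyperbolicity modulo a closed set, for the varieties of the vectors
whose powers are the values of a polynomial of any degree.
-/

set_option autoImplicit false

set_option linter.unusedSectionVars false

open FF Pool.Agent.W603.LV Pool.Agent.W603.PV Pool.Agent.W602.GT Pool.Agent.Y190.BV
  Pool.Agent.Y190.GN Pool.Agent.Y190.AH Pool.Agent.Y190.QP Pool.Agent.Y190.AG
  Pool.Agent.U463.PV
open Pool.Agent.Y190 (SN.Simple)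
open Pool.Agent.Y190.PH (sum_eval)
open LinearAlgebra.Projectivization

namespace Pool.Agent.U463.PG

/-- The points of `{F = 0}` which are not in `{G = 0}` are simple: the `m`-th powers of the
coordinates are the values of a polynomial `H` of degree at most `n` at the nodes, and `H` is not
divisible by the `m`-th power of a polynomial of degree at least two. -/
def SimpleOff {K : Type} [Field K] {N : ℕ} {ι κ : Type} (a : Fin (N + 1) → K) (n m : ℕ)
    (F : ι → MvPolynomial (Fin (N + 1)) K) (G : κ → MvPolynomial (Fin (N + 1)) K) : Prop :=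
  ∀ x ∈ Cone F, (∃ e, val x (G e) ≠ 0) → SimplePt a n m x

section

variable {k : Type} [Field k] [IsAlgClosed k] [CharZero k] {N n m : ℕ} {ι κ : Type}

/-- **Points over extensions outside of `Z` are simple.** -/
theorem simple_off (_hm : 1 ≤ m) (hn : n ≤ N) {a : Fin (N + 1) → k} (ha : Function.Injective a)
    {F : ι → MvPolynomial (Fin (N + 1)) k} {G : κ → MvPolynomial (Fin (N + 1)) k}
    (hsub : Cone F ⊆ PowVal a n m) (hS : SimpleOff a n m F G) {M : Type} [Field M]
    [Algebra k M] {y : Fin (N + 1) → M} (hy0 : y ≠ 0) (hy : ∀ e, val y (F e) = 0) {e0 : κ}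
    (hyG : val y (G e0) ≠ 0) :
    SN.Simple m (intp a hn (fun i => y i ^ m)) := by
  classical
  have hyb : ∀ l : Rel a n, val y (buchi a n m l) = 0 := sub_ext (by rw [cone_buchi ha hn]; exact hsub) hy0 hy
  set H := intp a hn (fun i => y i ^ m) with hHd
  have hev : ∀ i, H.eval (algebraMap k M (a i)) = y i ^ m := intp_eval ha hn m hyb
  have hHdeg : H.natDegree ≤ n := intp_natDegree ha hn _
  intro q hq
  by_contra hdeg
  push Not at hdeg
  obtain ⟨h, hh⟩ := hq
  have hq0 : q ≠ 0 := by
    rintro rfl
    rw [Polynomial.natDegree_zero] at hdeg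
    omega
  obtain ⟨i0, hi0⟩ := Function.ne_iff.1 hy0
  have hi0' : y i0 ≠ 0 := hi0
  have hH0 : H ≠ 0 := by
    intro h0
    have h1 := hev i0
    rw [h0, Polynomial.eval_zero] at h1
    exact hi0' (eq_zero_of_pow_eq_zero h1.symm)
  have hh0 : h ≠ 0 := by
    rintro rfl
    rw [mul_zero] at hh
    exact hH0 hh
  have hdH : H.natDegree = m * q.natDegree + h.natDegree := by
    rw [hh, Polynomial.natDegree_mul (pow_ne_zero _ hq0) hh0, Polynomial.natDegree_pow]
  let σ := Fin (N + 1) ⊕ (Fin (q.natDegree + 1) ⊕ Fin (h.natDegree + 1))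
  let z : σ → M := Sum.elim y (Sum.elim (fun l => q.coeff l) (fun l => h.coeff l))
  let P : MvPolynomial σ k := MvPolynomial.X (Sum.inl i0) *
    MvPolynomial.X (Sum.inr (Sum.inl (Fin.last _)))
  have hren : MvPolynomial.aeval z (MvPolynomial.rename Sum.inl (G e0) : MvPolynomial σ k) =
      val y (G e0) := by
    rw [MvPolynomial.aeval_rename]
    rfl
  obtain ⟨z0, hz00, hrel⟩ := specialise z (P * MvPolynomial.rename Sum.inl (G e0)) (by
    rw [map_mul, hren]
    refine mul_ne_zero ?_ hyG
    simp only [P, map_mul, MvPolynomial.aeval_X, z, Sum.elim_inl, Sum.elim_inr, Fin.val_last]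
    exact mul_ne_zero hi0' (by
      rw [Polynomial.coeff_natDegree, Ne, Polynomial.leadingCoeff_eq_zero]
      exact hq0))
  rw [map_mul] at hz00
  have hz0 := left_ne_zero_of_mul hz00
  have hzG := right_ne_zero_of_mul hz00
  rw [MvPolynomial.aeval_rename] at hzG
  simp only [P, map_mul, MvPolynomial.aeval_X] at hz0
  let x : Fin (N + 1) → k := fun i => z0 (Sum.inl i)
  let cq : ℕ → k := fun l => if hl : l < q.natDegree + 1 then z0 (Sum.inr (Sum.inl ⟨l, hl⟩)) else 0
  let ch : ℕ → k := fun l => if hl : l < h.natDegree + 1 then z0 (Sum.inr (Sum.inr ⟨l, hl⟩)) else 0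
  let q0 : Polynomial k := ∑ l ∈ Finset.range (q.natDegree + 1), Polynomial.C (cq l) *
    Polynomial.X ^ l
  let h0 : Polynomial k := ∑ l ∈ Finset.range (h.natDegree + 1), Polynomial.C (ch l) *
    Polynomial.X ^ l
  have hx : x ∈ Cone F := by
    refine ⟨fun h1 => left_ne_zero_of_mul hz0 (congrFun h1 i0), fun e => ?_⟩
    have h1 := hrel (MvPolynomial.rename Sum.inl (F e)) (by
      rw [MvPolynomial.aeval_rename]
      exact hy e)
    rw [MvPolynomial.aeval_rename] at h1
    exact h1
  have hval : ∀ i, q0.eval (a i) ^ m * h0.eval (a i) = x i ^ m := by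
    intro i
    let R : MvPolynomial σ k :=
      (∑ l : Fin (q.natDegree + 1), MvPolynomial.X (Sum.inr (Sum.inl l)) *
        MvPolynomial.C (a i ^ (l : ℕ))) ^ m *
      (∑ l : Fin (h.natDegree + 1), MvPolynomial.X (Sum.inr (Sum.inr l)) *
        MvPolynomial.C (a i ^ (l : ℕ))) - MvPolynomial.X (Sum.inl i) ^ m
    have hR : MvPolynomial.aeval z R = 0 := by
      have h1 := hev i
      rw [hh, Polynomial.eval_mul, Polynomial.eval_pow, Polynomial.eval_eq_sum_range,
        Polynomial.eval_eq_sum_range, Finset.sum_range, Finset.sum_range] at h1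
      simp only [R, map_sub, map_mul, map_pow, map_sum, MvPolynomial.aeval_X,
        MvPolynomial.aeval_C, z, Sum.elim_inl, Sum.elim_inr]
      rw [h1, sub_self]
    have h2 := hrel R hR
    simp only [R, map_sub, map_mul, map_pow, map_sum, MvPolynomial.aeval_X,
      MvPolynomial.aeval_C, Algebra.algebraMap_self, RingHom.id_apply] at h2
    have h3 : q0.eval (a i) = ∑ l : Fin (q.natDegree + 1), z0 (Sum.inr (Sum.inl l)) *
        a i ^ (l : ℕ) := by
      simp only [q0]
      rw [sum_eval, Finset.sum_range]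
      refine Finset.sum_congr rfl fun l _ => ?_
      simp only [cq]
      rw [dif_pos l.2]
    have h4 : h0.eval (a i) = ∑ l : Fin (h.natDegree + 1), z0 (Sum.inr (Sum.inr l)) *
        a i ^ (l : ℕ) := by
      simp only [h0]
      rw [sum_eval, Finset.sum_range]
      refine Finset.sum_congr rfl fun l _ => ?_
      simp only [ch]
      rw [dif_pos l.2]
    rw [h3, h4]
    exact sub_eq_zero.1 h2
  have hq0d : q0.natDegree ≤ q.natDegree := by
    refine Polynomial.natDegree_sum_le_of_forall_le _ _ fun l hl => ?_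
    rw [Finset.mem_range] at hl
    refine (Polynomial.natDegree_C_mul_X_pow_le _ _).trans (by omega)
  have hh0d : h0.natDegree ≤ h.natDegree := by
    refine Polynomial.natDegree_sum_le_of_forall_le _ _ fun l hl => ?_
    rw [Finset.mem_range] at hl
    refine (Polynomial.natDegree_C_mul_X_pow_le _ _).trans (by omega)
  have hcoef : q0.coeff q.natDegree ≠ 0 := by
    simp only [q0, Polynomial.finsetSum_coeff, Polynomial.coeff_C_mul, Polynomial.coeff_X_pow]
    rw [Finset.sum_eq_single q.natDegree]
    · rw [if_pos rfl, mul_one]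
      simp only [cq]
      rw [dif_pos (Nat.lt_succ_self _)]
      exact right_ne_zero_of_mul hz0
    · intro b _ hb
      rw [if_neg hb.symm, mul_zero]
    · intro hc
      exact absurd (Finset.mem_range.2 (Nat.lt_succ_self _)) hc
  have hq0d' : q.natDegree ≤ q0.natDegree := Polynomial.le_natDegree_of_ne_zero hcoef
  obtain ⟨H', hH'd, hH'v, hH's⟩ := hS x hx ⟨e0, hzG⟩
  have heq : H' = q0 ^ m * h0 := by
    rw [← sub_eq_zero]
    by_contra hne
    apply hne
    refine Polynomial.eq_zero_of_natDegree_lt_card_of_eval_eq_zero _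
      (f := fun i : Fin (N + 1) => a i) ha (fun i => ?_) ?_
    · rw [Polynomial.eval_sub, Polynomial.eval_mul, Polynomial.eval_pow, hval, ← hH'v, sub_self]
    · rw [Fintype.card_fin]
      have h5 := Polynomial.natDegree_sub_le H' (q0 ^ m * h0)
      have h6 : (q0 ^ m * h0).natDegree ≤ m * q.natDegree + h.natDegree := by
        refine Polynomial.natDegree_mul_le.trans (add_le_add ?_ hh0d)
        refine Polynomial.natDegree_pow_le.trans ?_
        exact Nat.mul_le_mul_left m hq0d
      omega
  have h7 := hH's q0 (by rw [heq]; exact Dvd.intro _ rfl)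
  omega

end

variable {K : Type} [Field K] {N n m : ℕ} {ι κ : Type}

variable [IsAlgClosed K] [CharZero K]

/-- If the lines are in `Z`, then the points outside of `Z` are simple. -/
theorem data_off (hm : 1 ≤ m) (hnN : n ≤ N) {a : Fin (N + 1) → K} (ha : Function.Injective a)
    {F : ι → MvPolynomial (Fin (N + 1)) K} (hF : ∀ e, IsForm (F e))
    {G : κ → MvPolynomial (Fin (N + 1)) K}
    (hV : Cone F = PowVal a n m ∨ Cone F ⊆ PowVal a n m ∧ SimpleOff a n m F G)
    (h : LineOff F G) : Cone F ⊆ PowVal a n m ∧ SimpleOff a n m F G := by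
  rcases hV with hV | hV
  · refine ⟨hV.subset, fun x hx ⟨e, he⟩ => ?_⟩
    by_contra hs
    obtain ⟨p, q, hpq, c, c', hxpq⟩ := onLine_of_not_simple hm hnN ha hF hV hx hs
    apply he
    rw [hxpq]
    exact h p q hpq c c' e
  · exact hV

/-- **Finiteness over all extensions.** -/
theorem field_finiteS (hm : 2 ≤ m) (hn : 1 ≤ n) {a : Fin (N + 1) → K}
    (ha : Function.Injective a) {k0 : Subfield K} (hk : Moving k0 a n)
    {F : ι → MvPolynomial (Fin (N + 1)) K} (hF : ∀ e, IsForm (F e))
    {G : κ → MvPolynomial (Fin (N + 1)) K}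
    (hV : Cone F = PowVal a n m ∨ Cone F ⊆ PowVal a n m ∧ SimpleOff a n m F G)
    (h : LineOff F G) {L : Type} [Field L]
    [Algebra K L] [IsAlgClosed L] (T : Finset L) : (FieldPts F G k0 T).Finite := by
  have hchL : CharZero L := charZero_of_injective_algebraMap (algebraMap K L).injective
  have hnN : n ≤ N := by
    obtain ⟨s, C, S, hs, hC, hCk, hS, hSk⟩ := hk
    have h1 := hS.trans (Finset.card_le_univ S)
    have h2 := hC.trans_le (Finset.card_le_univ C)
    rw [Fintype.card_fin] at h1 h2
    omega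
  obtain ⟨hsub, hS⟩ := data_off (by omega) hnN ha hF hV h
  have hV' : Cone F ⊆ Cone (buchi a n m) := by rw [cone_buchi ha hnN]; exact hsub
  have h1 := Pool.Agent.U463.PV.off_finiteS (m := m) hm hn (a := fun i => algebraMap K L (a i))
    ((algebraMap K L).injective.comp ha) (moving_ext hk)
    (F := fun e => MvPolynomial.map (algebraMap K L) (F e))
    (fun e => by
      obtain ⟨d, hd⟩ := hF e
      exact ⟨d, hd.map _⟩) T
  refine h1.subset ?_
  rintro p ⟨x, hxF, ⟨e, he⟩, hxT, hx0, rfl⟩
  refine ⟨x, ⟨hx0, fun e => by rw [Pool.Agent.Y190.AG.val_map]; exact hxF e⟩,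
    ⟨intp a hnN (fun i => x i ^ m), intp_natDegree ha hnN _,
      fun i => (intp_eval ha hnN m (sub_ext hV' hx0 hxF) i).symm,
      simple_off (by omega) hnN ha hsub hS hx0 hxF he⟩, ?_, hxT, hx0, rfl⟩
  rintro ⟨p, q, hpq, c, c', hxpq⟩
  apply he
  have hlin : ∀ p q : Fin (N + 1) → L,
      Line (fun e => MvPolynomial.map (algebraMap K L) (F e)) p q → x = c • p + c' • q →
        val x (G e) = 0 ∨ c = 0 := by
    intro p q hpq hx
    by_cases hc : c = 0
    · exact Or.inr hc
    · left
      have h2 := line_left hpq hc c'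
      rw [← hx] at h2
      obtain ⟨i, j, hij⟩ := wedge h2.1
      refine mem_closure x q ⟨i, j, hij⟩ (fun d d' e => ?_) (fun p q hpq c c' => h p q hpq c c' e)
      have h3 := h2.2 d d' e
      rw [Pool.Agent.Y190.AG.val_map] at h3
      exact h3
  rcases hlin p q hpq hxpq with h2 | hc
  · exact h2
  · by_cases hc' : c' = 0
    · exact absurd (by rw [hxpq, hc, hc', zero_smul, zero_smul, add_zero]) hx0
    · have h2 := line_left (line_swap hpq) hc' c
      rw [(hxpq.trans (add_comm (c • p) (c' • q))).symm] at h2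
      obtain ⟨i, j, hij⟩ := wedge h2.1
      refine mem_closure x p ⟨i, j, hij⟩ (fun d d' e => ?_) (fun p q hpq c c' => h p q hpq c c' e)
      have h3 := h2.2 d d' e
      rw [Pool.Agent.Y190.AG.val_map] at h3
      exact h3

/-- **Grouplessness and lines.** -/
theorem curves_tfaeS (hm : 2 ≤ m) (hN4 : 4 * n < N + 1) {a : Fin (N + 1) → K}
    (ha : Function.Injective a) {F : ι → MvPolynomial (Fin (N + 1)) K} (hF : ∀ e, IsForm (F e))
    {G : κ → MvPolynomial (Fin (N + 1)) K} (hG : ∀ e, IsForm (G e))
    (hV : Cone F = PowVal a n m ∨ Cone F ⊆ PowVal a n m ∧ SimpleOff a n m F G) :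
    [AlgHypOff F G, BoundedOff F G, GenusOneOff F G, GmOff F G, LineOff F G].TFAE := by
  -- a line that is not in `Z` gives morphisms
  have key : ∀ B : ℤ, ¬ LineOff F G → ∃ f : Fin (N + 1) → RatFunc K, MapOff F G f ∧
      B < pht K f := by
    intro B h
    obtain ⟨u, v, e, huv, he⟩ := exists_base hG h
    have huv' := line_left huv one_ne_zero (-1)
    have hgm : GmLine ∅ F ((1 : K) • u + (-1 : K) • v) v := by
      refine ⟨huv'.1, fun c c' hc _ => ⟨fun h0 => ?_, fun j hj => absurd hj
        (Set.notMem_empty j), huv'.2 c c'⟩⟩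
      exact hc (LinearIndependent.pair_iff.1 huv'.1 c c' h0).1
    obtain ⟨f, hf, hfG, hlt⟩ := gm_maps (G := G e) hgm (c := 1) (c' := 1) one_ne_zero one_ne_zero
      (by
        have h1 : (1 : K) • ((1 : K) • u + (-1 : K) • v) + (1 : K) • v = u := by
          rw [one_smul, one_smul, one_smul, neg_one_smul, neg_add_cancel_right]
        rw [h1]
        exact he) B
    exact ⟨f, ⟨fun h0 => hf.1.elim fun i hi => hi (congrFun h0 i), hf.2.1, e, hfG⟩, hlt⟩
  tfae_have 5 → 1 := by
    intro h
    have hnN : n ≤ N := by omega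
    obtain ⟨hsub, hS⟩ := data_off (by omega) hnN ha hF hV h
    obtain ⟨B, hB⟩ := Pool.Agent.Y190.PH.proj_boundS (m := m) hm hnN hN4 ha hF
    refine ⟨B, fun L _ _ _ f ⟨hf0, hfF, e, he⟩ => ?_⟩
    have hchL : CharZero L := charZero_of_injective_algebraMap (algebraMap K L).injective
    rcases hB L f hf0 (sub_ext (by rw [cone_buchi ha hnN]; exact hsub) hf0 hfF) hfF
      (simple_off (by omega) hnN ha hsub hS hf0 hfF he) with h1 | ⟨v, h1, h2⟩
    · exact h1
    · exact absurd (mem_closure f v h1 h2 fun p q hpq c c' => h p q hpq c c' e) he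
  tfae_have 1 → 2 := fun ⟨B, hB⟩ L _ _ _ => ⟨_, fun f hf => hB L f hf⟩
  tfae_have 2 → 5 := by
    intro h
    by_contra hcon
    obtain ⟨B, hB⟩ := h (RatFunc K)
    obtain ⟨f, hf, hlt⟩ := key B hcon
    exact absurd (hB f hf) (not_le.2 hlt)
  tfae_have 1 → 3 := by
    rintro ⟨B, hB⟩ L _ _ _ hL f hf
    have h1 := hB L f hf
    rw [max_eq_right hL, mul_zero] at h1
    obtain ⟨l, hl⟩ := Function.ne_iff.1 hf.1
    have hl' : f l ≠ 0 := hl
    have h2 : ∀ j, ∃ c : K, f j / f l = algebraMap K L c := by
      intro j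
      by_cases hj : f j = 0
      · exact ⟨0, by rw [hj, zero_div, map_zero]⟩
      · exact Pool.Agent.W603.LV.const_of_hgt
          ((Pool.Agent.W603.CX.hgt_le_pht (k := K) f hj hl').trans h1)
    choose x hx using h2
    exact ⟨f l, x, fun i => by rw [← hx, mul_div_cancel₀ _ hl']⟩
  tfae_have 3 → 5 := by
    intro h
    by_contra hcon
    obtain ⟨f, hf, hlt⟩ := key 0 hcon
    obtain ⟨c, x, hcx⟩ := h (RatFunc K) (by
      rw [Pool.Agent.W619.PQ.canDeg_rational (x := (RatFunc.X : RatFunc K)) RatFunc.adjoin_X]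
      norm_num) f hf
    obtain ⟨l, hl⟩ := Function.ne_iff.1 hf.1
    have hl' : f l ≠ 0 := hl
    have h1 := pht_le (k := K) f hl'
    have h2 : ∑ j, hgt K (f j / f l) = 0 := Finset.sum_eq_zero fun j _ => by
      have hc : c ≠ 0 := by
        rintro rfl
        apply hl'
        rw [hcx, zero_mul]
      rw [hcx j, hcx l, mul_div_mul_left _ _ hc, ← map_div₀]
      exact hgt_algebraic (isAlgebraic_algebraMap _)
    omega
  tfae_have 3 → 4 := by
    intro h P hP t ht e
    by_contra hne
    have hinj : Function.Injective (algebraMap (Polynomial K) (RatFunc K)) :=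
      RatFunc.algebraMap_injective K
    have hinf : Infinite K := inferInstance
    obtain ⟨c, x, hcx⟩ := h (RatFunc K) (by
      rw [Pool.Agent.W619.PQ.canDeg_rational (x := (RatFunc.X : RatFunc K)) RatFunc.adjoin_X]
      norm_num) (fun i => algebraMap (Polynomial K) (RatFunc K) (P i)) (by
        refine ⟨fun h0 => ?_, fun e => ?_, e, ?_⟩
        · apply hP.ne t ht
          funext i
          have h1 : P i = 0 := hinj (by rw [map_zero]; exact congrFun h0 i)
          rw [h1, Polynomial.eval_zero]
          rfl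
        · obtain ⟨Q, hQ1, hQ2⟩ := val_poly P (F e)
          have h0 : Q = 0 := poly_zero fun t ht => by
            rw [hQ1]
            exact hP.mem t ht e
          rw [← hQ2, h0, map_zero]
        · obtain ⟨Q, hQ1, hQ2⟩ := val_poly P (G e)
          rw [← hQ2]
          intro h0
          apply hne
          have h1 : Q = 0 := hinj (by rw [map_zero]; exact h0)
          rw [← hQ1, h1, Polynomial.eval_zero])
    obtain ⟨l, hl⟩ := Function.ne_iff.1 (hP.ne t ht)
    have hxl : x l ≠ 0 := by
      intro h0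
      apply hl
      have h1 : P l = 0 := hinj (by
        rw [map_zero]
        have h2 := hcx l
        rw [h0, map_zero, mul_zero] at h2
        exact h2)
      change (P l).eval t = 0
      rw [h1, Polynomial.eval_zero]
    have hprop : ∀ i, P i * Polynomial.C (x l) = P l * Polynomial.C (x i) := by
      intro i
      apply hinj
      have h1 := hcx i
      have h2 := hcx l
      have h3 : ∀ y : K, algebraMap (Polynomial K) (RatFunc K) (Polynomial.C y) =
          algebraMap K (RatFunc K) y := by
        intro y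
        rw [IsScalarTower.algebraMap_apply K (Polynomial K) (RatFunc K)]
        rfl
      rw [map_mul, map_mul, h3, h3, h1, h2]
      ring
    obtain ⟨t1, t2, ht1, ht2, hli⟩ := hP.nonconst
    have hev : ∀ s i, (P i).eval s * x l = (P l).eval s * x i := by
      intro s i
      have h1 := congrArg (Polynomial.eval s) (hprop i)
      rwa [Polynomial.eval_mul, Polynomial.eval_mul, Polynomial.eval_C, Polynomial.eval_C] at h1
    have h1 := LinearIndependent.pair_iff.1 hli ((P l).eval t2) (-(P l).eval t1) (by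
      funext i
      simp only [Pi.add_apply, Pi.smul_apply, smul_eq_mul, Pi.zero_apply]
      have h2 := hev t1 i
      have h3 := hev t2 i
      apply mul_right_cancel₀ hxl
      linear_combination (P l).eval t2 * h2 - (P l).eval t1 * h3)
    apply hP.ne t2 ht2
    funext i
    have h2 := hev t2 i
    rw [h1.1, zero_mul] at h2
    exact (mul_eq_zero.1 h2).resolve_right hxl
  tfae_have 4 → 5 := by
    intro h
    by_contra hcon
    obtain ⟨u, v, e, huv, he⟩ := exists_base hG hcon
    have huv' := line_left huv one_ne_zero (-1)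
    have hinf : Infinite K := inferInstance
    have h1 := line_key (G := G e) (fun P hP t ht => h P hP t ht e) huv'
    rw [one_smul, neg_one_smul, neg_add_cancel_right] at h1
    exact he h1
  tfae_finish

/-- **Grouplessness and arithmetic hyperbolicity.** -/
theorem groupless_tfaeS (hm : 2 ≤ m) (hn : 1 ≤ n) {a : Fin (N + 1) → K}
    (ha : Function.Injective a) {k0 : Subfield K} (hk : Moving k0 a n)
    {F : ι → MvPolynomial (Fin (N + 1)) K} (hF : ∀ e, IsForm (F e))
    {G : κ → MvPolynomial (Fin (N + 1)) K} (hG : ∀ e, IsForm (G e))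
    (hV : Cone F = PowVal a n m ∨ Cone F ⊆ PowVal a n m ∧ SimpleOff a n m F G) :
    [∀ (L : Type) [Field L] [Algebra K L] [IsAlgClosed L] (T : Finset L),
        (FieldPts F G k0 T).Finite,
      ∀ T : Finset K, (RingPts F G T).Finite, LineOff F G].TFAE := by
  tfae_have 3 → 1 := fun h L _ _ _ T => field_finiteS hm hn ha hk hF hV h T
  tfae_have 1 → 2 := fun h T => ring_of_field (h K T)
  tfae_have 2 → 3 := line_of_ring hG
  tfae_finish

end Pool.Agent.U463.PG
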